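import Mathlib

/-!
A finite graph that is not 3-Tverberg: it is not partition induced on any set of consecutive
integer points of the moment curve in three-space.
-/

namespace Pool.Agent.Results.MP_ba10a5_co.NotThreeTverberg

/-- General position in `R^d`: no `d + 1` of the points lie on a common affine hyperplane. -/
def GeneralPosition {d : ℕ} (S : Finset (Fin d → ℝ)) : Prop :=
  ∀ T : Finset (Fin d → ℝ), T ⊆ S → T.card = d + 1 →
    ¬ ∃ (l : (Fin d → ℝ) →ₗ[ℝ] ℝ) (c : ℝ), l ≠ 0 ∧ ∀ x ∈ T, l x = c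

/-- The graph `G` is partition induced on `S`: `S` has a partition into nonempty classes `P v`
indexed by the vertices, two convex hulls meet if and only if the vertices are adjacent, and no
three convex hulls have a common point. -/
def PartitionInduced {V : Type} (G : SimpleGraph V) {d : ℕ} (S : Finset (Fin d → ℝ)) : Prop :=
  ∃ P : V → Finset (Fin d → ℝ), (∀ v, (P v).Nonempty) ∧ (∀ u v, u ≠ v → Disjoint (P u) (P v)) ∧
    (∀ x, x ∈ S ↔ ∃ v, x ∈ P v) ∧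
    (∀ u v, u ≠ v → ((convexHull ℝ (P u : Set (Fin d → ℝ)) ∩
      convexHull ℝ (P v : Set (Fin d → ℝ))).Nonempty ↔ G.Adj u v)) ∧
    (∀ u v w, u ≠ v → v ≠ w → u ≠ w → convexHull ℝ (P u : Set (Fin d → ℝ)) ∩
      convexHull ℝ (P v : Set (Fin d → ℝ)) ∩ convexHull ℝ (P w : Set (Fin d → ℝ)) = ∅)

/-- `G` is `d`-Tverberg: there is a constant `c` such that `G` is partition induced on every finite
set in general position in `R^d` with more than `c` points. -/
def IsTverberg {V : Type} (d : ℕ) (G : SimpleGraph V) : Prop :=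
  ∃ c : ℕ, ∀ S : Finset (Fin d → ℝ), GeneralPosition S → c < S.card → PartitionInduced G S

/-- five alternating points, starting and ending in `A` -/
def Alt (A B : Set ℕ) : Prop :=
  ∃ t1 t2 t3 t4 t5, t1 < t2 ∧ t2 < t3 ∧ t3 < t4 ∧ t4 < t5 ∧
    t1 ∈ A ∧ t2 ∈ B ∧ t3 ∈ A ∧ t4 ∈ B ∧ t5 ∈ A

/-- the moment curve -/
def mc (t : ℕ) : Fin 3 → ℝ := ![(t : ℝ), (t : ℝ) ^ 2, (t : ℝ) ^ 3]

/-- the value of the cubic with roots `c1 - 1/2, c2 - 1/2, c3 - 1/2` -/
noncomputable def cub (c1 c2 c3 t : ℕ) : ℝ := ((t : ℝ) - c1 + 1/2) * ((t : ℝ) - c2 + 1/2) * ((t : ℝ) - c3 + 1/2)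

theorem cut_aux (N : ℕ) (A B : Set ℕ) (hA : ∀ t ∈ A, t ≤ N) (hB : ∀ t ∈ B, t ≤ N)
    (hAB : Disjoint A B) (hfirst : ∃ a ∈ A, ∀ b ∈ B, a < b) (hno : ¬ Alt A B) :
    ∃ c1 c2 c3 : ℕ, (∀ t ∈ A, cub c1 c2 c3 t < 0) ∧ (∀ t ∈ B, 0 < cub c1 c2 c3 t) := by
  classical
  obtain ⟨a, haA, hab⟩ := hfirst
  have h1 : ∃ t, t ∈ B ∨ N < t := ⟨N + 1, Or.inr (Nat.lt_succ_self _)⟩
  obtain ⟨c1, hc1, hc1m⟩ : ∃ c1, (c1 ∈ B ∨ N < c1) ∧ ∀ t < c1, ¬ (t ∈ B ∨ N < t) :=
    ⟨Nat.find h1, Nat.find_spec h1, fun t ht => Nat.find_min h1 ht⟩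
  have h2 : ∃ t, c1 < t ∧ (t ∈ A ∨ N < t) := ⟨N + c1 + 1, by omega, Or.inr (by omega)⟩
  obtain ⟨c2, hc2, hc2m⟩ : ∃ c2, (c1 < c2 ∧ (c2 ∈ A ∨ N < c2)) ∧
      ∀ t < c2, ¬ (c1 < t ∧ (t ∈ A ∨ N < t)) :=
    ⟨Nat.find h2, Nat.find_spec h2, fun t ht => Nat.find_min h2 ht⟩
  have h3 : ∃ t, c2 < t ∧ (t ∈ B ∨ N < t) := ⟨N + c2 + 1, by omega, Or.inr (by omega)⟩
  obtain ⟨c3, hc3, hc3m⟩ : ∃ c3, (c2 < c3 ∧ (c3 ∈ B ∨ N < c3)) ∧
      ∀ t < c3, ¬ (c2 < t ∧ (t ∈ B ∨ N < t)) :=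
    ⟨Nat.find h3, Nat.find_spec h3, fun t ht => Nat.find_min h3 ht⟩
  have hd : ∀ t, t ∈ A → t ∈ B → False := fun t h h' => Set.disjoint_left.1 hAB h h'
  -- positions of the points of A
  have pA : ∀ t ∈ A, t < c1 ∨ (c2 ≤ t ∧ t < c3) := by
    intro t ht
    have htN := hA t ht
    by_contra hcon
    push Not at hcon
    obtain ⟨k1, k2⟩ := hcon
    have k3 : c1 ≠ t := by
      rintro rfl
      rcases hc1 with h | h
      · exact hd _ ht h
      · omega
    have k4 : c2 ≤ t := by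
      by_contra h
      push Not at h
      exact hc2m t h ⟨by omega, Or.inl ht⟩
    have k5 := k2 k4
    have k6 : c3 ≠ t := by
      rintro rfl
      rcases hc3.2 with h | h
      · exact hd _ ht h
      · omega
    have g1 : c1 ∈ B := by
      rcases hc1 with h | h
      · exact h
      · omega
    have g2 : c2 ∈ A := by
      rcases hc2.2 with h | h
      · exact h
      · omega
    have g3 : c3 ∈ B := by
      rcases hc3.2 with h | h
      · exact h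
      · omega
    exact hno ⟨a, c1, c2, c3, t, hab c1 g1, hc2.1, hc3.1, by omega, haA, g1, g2, g3, ht⟩
  have pB : ∀ t ∈ B, (c1 ≤ t ∧ t < c2) ∨ c3 ≤ t := by
    intro t ht
    have htN := hB t ht
    by_contra hcon
    push Not at hcon
    obtain ⟨k1, k2⟩ := hcon
    have k3 : c1 ≤ t := by
      by_contra h
      push Not at h
      exact hc1m t h (Or.inl ht)
    have k4 := k1 k3
    have k5 : c2 ≠ t := by
      rintro rfl
      rcases hc2.2 with h | h
      · exact hd _ h ht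
      · omega
    exact hc3m t k2 ⟨by omega, Or.inl ht⟩
  have hneg : ∀ c t : ℕ, t < c → (t : ℝ) - c + 1/2 < 0 := by
    intro c t h
    have : (t : ℝ) + 1 ≤ c := by exact_mod_cast h
    linarith
  have hpos : ∀ c t : ℕ, c ≤ t → 0 < (t : ℝ) - c + 1/2 := by
    intro c t h
    have : (c : ℝ) ≤ t := by exact_mod_cast h
    linarith
  refine ⟨c1, c2, c3, fun t ht => ?_, fun t ht => ?_⟩
  · unfold cub
    rcases pA t ht with h | ⟨h, h'⟩
    · have e1 := hneg c1 t h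
      have e2 := hneg c2 t (by omega)
      have e3 := hneg c3 t (by omega)
      exact mul_neg_of_pos_of_neg (mul_pos_of_neg_of_neg e1 e2) e3
    · have e1 := hpos c1 t (by omega)
      have e2 := hpos c2 t h
      have e3 := hneg c3 t h'
      exact mul_neg_of_pos_of_neg (mul_pos e1 e2) e3
  · unfold cub
    rcases pB t ht with ⟨h, h'⟩ | h
    · have e1 := hpos c1 t h
      have e2 := hneg c2 t h'
      have e3 := hneg c3 t (by omega)
      exact mul_pos_of_neg_of_neg (mul_neg_of_pos_of_neg e1 e2) e3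
    · have e1 := hpos c1 t (by omega)
      have e2 := hpos c2 t (by omega)
      have e3 := hpos c3 t h
      exact mul_pos (mul_pos e1 e2) e3

theorem cut (N : ℕ) (A B : Set ℕ) (hA : ∀ t ∈ A, t ≤ N) (hB : ∀ t ∈ B, t ≤ N)
    (hAB : Disjoint A B) (hAn : A.Nonempty) (hBn : B.Nonempty) (h1 : ¬ Alt A B) (h2 : ¬ Alt B A) :
    ∃ c1 c2 c3 : ℕ, ((∀ t ∈ A, cub c1 c2 c3 t < 0) ∧ (∀ t ∈ B, 0 < cub c1 c2 c3 t)) ∨
      ((∀ t ∈ B, cub c1 c2 c3 t < 0) ∧ (∀ t ∈ A, 0 < cub c1 c2 c3 t)) := by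
  classical
  obtain ⟨a, ha, hamin⟩ : ∃ a ∈ A, ∀ t ∈ A, a ≤ t :=
    ⟨Nat.find hAn, Nat.find_spec hAn, fun t ht => Nat.find_min' hAn ht⟩
  obtain ⟨b, hb, hbmin⟩ : ∃ b ∈ B, ∀ t ∈ B, b ≤ t :=
    ⟨Nat.find hBn, Nat.find_spec hBn, fun t ht => Nat.find_min' hBn ht⟩
  have hne : a ≠ b := fun h => Set.disjoint_left.1 hAB ha (h ▸ hb)
  rcases lt_or_gt_of_ne hne with h | h
  · obtain ⟨c1, c2, c3, e1, e2⟩ := cut_aux N A B hA hB hAB
      ⟨a, ha, fun t ht => lt_of_lt_of_le h (hbmin t ht)⟩ h1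
    exact ⟨c1, c2, c3, Or.inl ⟨e1, e2⟩⟩
  · obtain ⟨c1, c2, c3, e1, e2⟩ := cut_aux N B A hB hA hAB.symm
      ⟨b, hb, fun t ht => lt_of_lt_of_le h (hamin t ht)⟩ h2
    exact ⟨c1, c2, c3, Or.inr ⟨e1, e2⟩⟩

/-- the affine function on three-space that restricts to `cub` on the moment curve -/
noncomputable def aff (c1 c2 c3 : ℕ) (x : Fin 3 → ℝ) : ℝ :=
  x 2 - (((c1 : ℝ) - 1/2) + ((c2 : ℝ) - 1/2) + ((c3 : ℝ) - 1/2)) * x 1 +
    (((c1 : ℝ) - 1/2) * ((c2 : ℝ) - 1/2) + ((c1 : ℝ) - 1/2) * ((c3 : ℝ) - 1/2) +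
      ((c2 : ℝ) - 1/2) * ((c3 : ℝ) - 1/2)) * x 0 -
    ((c1 : ℝ) - 1/2) * ((c2 : ℝ) - 1/2) * ((c3 : ℝ) - 1/2)

theorem aff_mc (c1 c2 c3 t : ℕ) : aff c1 c2 c3 (mc t) = cub c1 c2 c3 t := by
  simp only [aff, mc, cub, Matrix.cons_val_zero, Matrix.cons_val_one, Matrix.cons_val]
  ring

theorem aff_combo (c1 c2 c3 : ℕ) (x y : Fin 3 → ℝ) (u v : ℝ) (huv : u + v = 1) :
    aff c1 c2 c3 (u • x + v • y) = u * aff c1 c2 c3 x + v * aff c1 c2 c3 y := by
  have : v = 1 - u := by linarith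
  subst this
  simp only [aff, Pi.add_apply, Pi.smul_apply, smul_eq_mul]
  ring

theorem convex_neg (c1 c2 c3 : ℕ) : Convex ℝ {x | aff c1 c2 c3 x < 0} := by
  intro x hx y hy u v hu hv huv
  show aff c1 c2 c3 (u • x + v • y) < 0
  rw [aff_combo _ _ _ _ _ _ _ huv]
  have hx : aff c1 c2 c3 x < 0 := hx
  have hy : aff c1 c2 c3 y < 0 := hy
  rcases hu.eq_or_lt with h | h
  · have : v = 1 := by linarith
    rw [← h, this]; linarith
  · nlinarith [mul_pos h (neg_pos.2 hx), mul_nonneg hv (neg_pos.2 hy).le]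

theorem convex_pos (c1 c2 c3 : ℕ) : Convex ℝ {x | 0 < aff c1 c2 c3 x} := by
  intro x hx y hy u v hu hv huv
  show 0 < aff c1 c2 c3 (u • x + v • y)
  rw [aff_combo _ _ _ _ _ _ _ huv]
  have hx : 0 < aff c1 c2 c3 x := hx
  have hy : 0 < aff c1 c2 c3 y := hy
  rcases hu.eq_or_lt with h | h
  · have : v = 1 := by linarith
    rw [← h, this]; linarith
  · nlinarith [mul_pos h hx, mul_nonneg hv hy.le]

theorem hull_disj (c1 c2 c3 : ℕ) (A B : Set ℕ) (hA : ∀ t ∈ A, cub c1 c2 c3 t < 0)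
    (hB : ∀ t ∈ B, 0 < cub c1 c2 c3 t) (x : Fin 3 → ℝ) (h1 : x ∈ convexHull ℝ (mc '' A))
    (h2 : x ∈ convexHull ℝ (mc '' B)) : False := by
  have s1 : mc '' A ⊆ {x | aff c1 c2 c3 x < 0} := by
    rintro _ ⟨t, ht, rfl⟩
    show aff c1 c2 c3 (mc t) < 0
    rw [aff_mc]; exact hA t ht
  have s2 : mc '' B ⊆ {x | 0 < aff c1 c2 c3 x} := by
    rintro _ ⟨t, ht, rfl⟩
    show 0 < aff c1 c2 c3 (mc t)
    rw [aff_mc]; exact hB t ht
  have e1 : aff c1 c2 c3 x < 0 := convexHull_min s1 (convex_neg c1 c2 c3) h1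
  have e2 : 0 < aff c1 c2 c3 x := convexHull_min s2 (convex_pos c1 c2 c3) h2
  exact lt_asymm e1 e2

theorem alt_meet (A B : Set ℕ) (h : Alt A B) :
    (convexHull ℝ (mc '' A) ∩ convexHull ℝ (mc '' B)).Nonempty := by
  obtain ⟨t1, t2, t3, t4, t5, h12, h23, h34, h45, m1, m2, m3, m4, m5⟩ := h
  obtain ⟨x1, hx1⟩ : ∃ x : ℝ, x = t1 := ⟨_, rfl⟩
  obtain ⟨x2, hx2⟩ : ∃ x : ℝ, x = t2 := ⟨_, rfl⟩
  obtain ⟨x3, hx3⟩ : ∃ x : ℝ, x = t3 := ⟨_, rfl⟩
  obtain ⟨x4, hx4⟩ : ∃ x : ℝ, x = t4 := ⟨_, rfl⟩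
  obtain ⟨x5, hx5⟩ : ∃ x : ℝ, x = t5 := ⟨_, rfl⟩
  have g12 : x1 < x2 := by rw [hx1, hx2]; exact_mod_cast h12
  have g23 : x2 < x3 := by rw [hx3, hx2]; exact_mod_cast h23
  have g34 : x3 < x4 := by rw [hx3, hx4]; exact_mod_cast h34
  have g45 : x4 < x5 := by rw [hx5, hx4]; exact_mod_cast h45
  obtain ⟨w1, hw1⟩ : ∃ w, w = (x3 - x2) * (x4 - x2) * (x5 - x2) * (x4 - x3) * (x5 - x3) * (x5 - x4) :=
    ⟨_, rfl⟩
  obtain ⟨w2, hw2⟩ : ∃ w, w = (x3 - x1) * (x4 - x1) * (x5 - x1) * (x4 - x3) * (x5 - x3) * (x5 - x4) :=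
    ⟨_, rfl⟩
  obtain ⟨w3, hw3⟩ : ∃ w, w = (x2 - x1) * (x4 - x1) * (x5 - x1) * (x4 - x2) * (x5 - x2) * (x5 - x4) :=
    ⟨_, rfl⟩
  obtain ⟨w4, hw4⟩ : ∃ w, w = (x2 - x1) * (x3 - x1) * (x5 - x1) * (x3 - x2) * (x5 - x2) * (x5 - x3) :=
    ⟨_, rfl⟩
  obtain ⟨w5, hw5⟩ : ∃ w, w = (x2 - x1) * (x3 - x1) * (x4 - x1) * (x3 - x2) * (x4 - x2) * (x4 - x3) :=
    ⟨_, rfl⟩
  have d12 : 0 < x2 - x1 := by linarith
  have d13 : 0 < x3 - x1 := by linarith
  have d14 : 0 < x4 - x1 := by linarith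
  have d15 : 0 < x5 - x1 := by linarith
  have d23 : 0 < x3 - x2 := by linarith
  have d24 : 0 < x4 - x2 := by linarith
  have d25 : 0 < x5 - x2 := by linarith
  have d34 : 0 < x4 - x3 := by linarith
  have d35 : 0 < x5 - x3 := by linarith
  have d45 : 0 < x5 - x4 := by linarith
  have p1 : 0 < w1 := by rw [hw1]; positivity
  have p2 : 0 < w2 := by rw [hw2]; positivity
  have p3 : 0 < w3 := by rw [hw3]; positivity
  have p4 : 0 < w4 := by rw [hw4]; positivity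
  have p5 : 0 < w5 := by rw [hw5]; positivity
  have i0 : w1 + w3 + w5 = w2 + w4 := by rw [hw1, hw2, hw3, hw4, hw5]; ring
  have i1 : w1 * x1 + w3 * x3 + w5 * x5 = w2 * x2 + w4 * x4 := by
    rw [hw1, hw2, hw3, hw4, hw5]; ring
  have i2 : w1 * x1 ^ 2 + w3 * x3 ^ 2 + w5 * x5 ^ 2 = w2 * x2 ^ 2 + w4 * x4 ^ 2 := by
    rw [hw1, hw2, hw3, hw4, hw5]; ring
  have i3 : w1 * x1 ^ 3 + w3 * x3 ^ 3 + w5 * x5 ^ 3 = w2 * x2 ^ 3 + w4 * x4 ^ 3 := by
    rw [hw1, hw2, hw3, hw4, hw5]; ring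
  have hW : 0 < w2 + w4 := by linarith
  have c1 : Convex ℝ (convexHull ℝ (mc '' A)) := convex_convexHull _ _
  have c2 : Convex ℝ (convexHull ℝ (mc '' B)) := convex_convexHull _ _
  have k1 : mc t1 ∈ convexHull ℝ (mc '' A) := subset_convexHull _ _ ⟨t1, m1, rfl⟩
  have k3 : mc t3 ∈ convexHull ℝ (mc '' A) := subset_convexHull _ _ ⟨t3, m3, rfl⟩
  have k5 : mc t5 ∈ convexHull ℝ (mc '' A) := subset_convexHull _ _ ⟨t5, m5, rfl⟩
  have k2 : mc t2 ∈ convexHull ℝ (mc '' B) := subset_convexHull _ _ ⟨t2, m2, rfl⟩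
  have k4 : mc t4 ∈ convexHull ℝ (mc '' B) := subset_convexHull _ _ ⟨t4, m4, rfl⟩
  obtain ⟨z, hz⟩ : ∃ z : Fin 3 → ℝ, z = (w2 / (w2 + w4)) • mc t2 + (w4 / (w2 + w4)) • mc t4 :=
    ⟨_, rfl⟩
  refine ⟨z, ?_, ?_⟩
  · have hW3 : 0 < w1 + w3 := by linarith
    have hq := c1 k1 k3 (a := w1 / (w1 + w3)) (b := w3 / (w1 + w3)) (by positivity) (by positivity)
      (by field_simp)
    have hr := c1 hq k5 (a := (w1 + w3) / (w2 + w4)) (b := w5 / (w2 + w4)) (by positivity)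
      (by positivity) (by rw [← i0]; field_simp)
    have : z = ((w1 + w3) / (w2 + w4)) • ((w1 / (w1 + w3)) • mc t1 + (w3 / (w1 + w3)) • mc t3) +
        (w5 / (w2 + w4)) • mc t5 := by
      rw [hz]
      funext i
      simp only [Pi.add_apply, Pi.smul_apply, smul_eq_mul]
      field_simp
      fin_cases i
      · show w2 * mc t2 0 + w4 * mc t4 0 = w1 * mc t1 0 + w3 * mc t3 0 + w5 * mc t5 0
        simp only [mc, Matrix.cons_val_zero, ← hx1, ← hx2, ← hx3, ← hx4, ← hx5]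
        linarith
      · show w2 * mc t2 1 + w4 * mc t4 1 = w1 * mc t1 1 + w3 * mc t3 1 + w5 * mc t5 1
        simp only [mc, Matrix.cons_val_one, Matrix.cons_val_zero, ← hx1, ← hx2, ← hx3, ← hx4, ← hx5]
        linarith
      · show w2 * mc t2 2 + w4 * mc t4 2 = w1 * mc t1 2 + w3 * mc t3 2 + w5 * mc t5 2
        simp only [mc, Matrix.cons_val, ← hx1, ← hx2, ← hx3, ← hx4, ← hx5]
        linarith
    rw [this]; exact hr
  · rw [hz]
    exact c2 k2 k4 (by positivity) (by positivity) (by field_simp)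

/-- hulls of disjoint sets on the moment curve meet iff there are five alternating points -/
theorem meet_iff (N : ℕ) (A B : Set ℕ) (hA : ∀ t ∈ A, t ≤ N) (hB : ∀ t ∈ B, t ≤ N)
    (hAB : Disjoint A B) (hAn : A.Nonempty) (hBn : B.Nonempty) :
    (convexHull ℝ (mc '' A) ∩ convexHull ℝ (mc '' B)).Nonempty ↔ Alt A B ∨ Alt B A := by
  constructor
  · rintro ⟨x, h1, h2⟩
    by_contra hcon
    push Not at hcon
    obtain ⟨c1, c2, c3, h | h⟩ := cut N A B hA hB hAB hAn hBn hcon.1 hcon.2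
    · exact hull_disj c1 c2 c3 A B h.1 h.2 x h1 h2
    · exact hull_disj c1 c2 c3 B A h.1 h.2 x h2 h1
  · rintro (h | h)
    · exact alt_meet A B h
    · obtain ⟨x, h1, h2⟩ := alt_meet B A h
      exact ⟨x, h2, h1⟩

/-- the bipartite incidence graph between `m` points and all `2 ^ m` sets of points -/
def G (m : ℕ) : SimpleGraph (Fin m ⊕ Finset (Fin m)) where
  Adj u v := (∃ i S, i ∈ S ∧ u = Sum.inl i ∧ v = Sum.inr S) ∨
    (∃ i S, i ∈ S ∧ v = Sum.inl i ∧ u = Sum.inr S)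
  symm := by
    refine ⟨?_⟩
    intro u v h
    exact h.symm
  loopless := by
    refine ⟨?_⟩
    rintro u (⟨i, S, _, h1, h2⟩ | ⟨i, S, _, h1, h2⟩)
    · rw [h1] at h2; simp at h2
    · rw [h1] at h2; simp at h2

theorem sep (c1 c2 c3 a b : ℕ) (h : cub c1 c2 c3 a < 0) (h' : 0 < cub c1 c2 c3 b) :
    ∃ s ∈ ({c1, c2, c3} : Finset ℕ), (a < s ∧ s ≤ b) ∨ (b < s ∧ s ≤ a) := by
  by_contra hcon
  push Not at hcon
  have hsame : ∀ c ∈ ({c1, c2, c3} : Finset ℕ),
      0 < ((a : ℝ) - c + 1/2) * ((b : ℝ) - c + 1/2) := by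
    intro c hc
    obtain ⟨k1, k2⟩ := hcon c hc
    by_cases hac : a < c
    · have := k1 hac
      have e1 : (a : ℝ) + 1 ≤ c := by exact_mod_cast hac
      have e2 : (b : ℝ) + 1 ≤ c := by exact_mod_cast this
      exact mul_pos_of_neg_of_neg (by linarith) (by linarith)
    · have hbc : c ≤ b := by
        by_contra hbc
        push Not at hbc
        have := k2 hbc
        omega
      have e1 : (c : ℝ) ≤ a := by exact_mod_cast (not_lt.1 hac)
      have e2 : (c : ℝ) ≤ b := by exact_mod_cast hbc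
      exact mul_pos (by linarith) (by linarith)
  have f1 := hsame c1 (by simp)
  have f2 := hsame c2 (by simp)
  have f3 := hsame c3 (by simp)
  have f4 := mul_pos (mul_pos f1 f2) f3
  have f5 : cub c1 c2 c3 a * cub c1 c2 c3 b < 0 := mul_neg_of_neg_of_pos h h'
  unfold cub at f5
  nlinarith

theorem four_blocks (A B : Set ℕ) (hAB : Disjoint A B) (a b : Fin 4 → ℕ) (ha : ∀ r, a r ∈ A)
    (hb : ∀ r, b r ∈ B) (h : ∀ r s, r < s → a r < b s ∧ b r < a s) : Alt A B ∨ Alt B A := by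
  have hne : a 0 ≠ b 0 := fun e => Set.disjoint_left.1 hAB (ha 0) (e ▸ hb 0)
  rcases lt_or_gt_of_ne hne with e | e
  · left
    exact ⟨a 0, b 0, a 1, b 2, a 3, e, (h 0 1 (by decide)).2, (h 1 2 (by decide)).1,
      (h 2 3 (by decide)).2, ha 0, hb 0, ha 1, hb 2, ha 3⟩
  · right
    exact ⟨b 0, a 0, b 1, a 2, b 3, e, (h 0 1 (by decide)).1, (h 1 2 (by decide)).2,
      (h 2 3 (by decide)).1, hb 0, ha 0, hb 1, ha 2, hb 3⟩

theorem transfer (κ : ℕ → ℕ) (hκ : Monotone κ) (A A' B : Set ℕ)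
    (h : ∀ t ∈ A, ∃ t' ∈ A', κ t' = κ t) (hB : ∀ t ∈ A, ∀ b ∈ B, κ t ≠ κ b) :
    (Alt A B → Alt A' B) ∧ (Alt B A → Alt B A') := by
  have hlt : ∀ u v, κ u < κ v → u < v := fun u v huv => by
    by_contra hcon
    push Not at hcon
    exact absurd (hκ hcon) (not_le.2 huv)
  constructor
  · rintro ⟨t1, t2, t3, t4, t5, h12, h23, h34, h45, m1, m2, m3, m4, m5⟩
    obtain ⟨u1, n1, e1⟩ := h t1 m1
    obtain ⟨u3, n3, e3⟩ := h t3 m3
    obtain ⟨u5, n5, e5⟩ := h t5 m5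
    refine ⟨u1, t2, u3, t4, u5, hlt _ _ ?_, hlt _ _ ?_, hlt _ _ ?_, hlt _ _ ?_, n1, m2, n3, m4, n5⟩
    · rw [e1]; exact lt_of_le_of_ne (hκ h12.le) (hB t1 m1 t2 m2)
    · rw [e3]; exact lt_of_le_of_ne (hκ h23.le) (hB t3 m3 t2 m2).symm
    · rw [e3]; exact lt_of_le_of_ne (hκ h34.le) (hB t3 m3 t4 m4)
    · rw [e5]; exact lt_of_le_of_ne (hκ h45.le) (hB t5 m5 t4 m4).symm
  · rintro ⟨t1, t2, t3, t4, t5, h12, h23, h34, h45, m1, m2, m3, m4, m5⟩
    obtain ⟨u2, n2, e2⟩ := h t2 m2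
    obtain ⟨u4, n4, e4⟩ := h t4 m4
    refine ⟨t1, u2, t3, u4, t5, hlt _ _ ?_, hlt _ _ ?_, hlt _ _ ?_, hlt _ _ ?_, m1, n2, m3, n4, m5⟩
    · rw [e2]; exact lt_of_le_of_ne (hκ h12.le) (hB t2 m2 t1 m1).symm
    · rw [e2]; exact lt_of_le_of_ne (hκ h23.le) (hB t2 m2 t3 m3)
    · rw [e4]; exact lt_of_le_of_ne (hκ h34.le) (hB t4 m4 t3 m3).symm
    · rw [e4]; exact lt_of_le_of_ne (hκ h45.le) (hB t4 m4 t5 m5)

theorem comb (m N : ℕ) (A : Fin m ⊕ Finset (Fin m) → Set ℕ) (hN : ∀ v, ∀ t ∈ A v, t ≤ N)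
    (hne : ∀ v, (A v).Nonempty) (hd : ∀ u v, u ≠ v → Disjoint (A u) (A v))
    (hG : ∀ u v, u ≠ v → ((Alt (A u) (A v) ∨ Alt (A v) (A u)) ↔ (G m).Adj u v)) :
    2 ^ m ≤ (m * m * 3 + 1) ^ 4 + (m * m * 3 + 1) ^ 3 * 2 ^ 3 := by
  classical
  have hT : ∀ i j : Fin m, ∃ T : Finset ℕ, T.card ≤ 3 ∧ (i ≠ j → ∀ a ∈ A (Sum.inl i),
      ∀ b ∈ A (Sum.inl j), ∃ s ∈ T, (a < s ∧ s ≤ b) ∨ (b < s ∧ s ≤ a)) := by
    intro i j
    by_cases hij : i = j
    · exact ⟨∅, by simp, fun h => absurd hij h⟩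
    · have hne' : (Sum.inl i : Fin m ⊕ Finset (Fin m)) ≠ Sum.inl j := fun h => hij (Sum.inl_injective h)
      have hno : ¬ (Alt (A (Sum.inl i)) (A (Sum.inl j)) ∨ Alt (A (Sum.inl j)) (A (Sum.inl i))) := by
        rw [hG _ _ hne']
        rintro (⟨_, _, _, _, h⟩ | ⟨_, _, _, _, h⟩) <;> simp at h
      push Not at hno
      obtain ⟨c1, c2, c3, h⟩ := cut N _ _ (hN (Sum.inl i)) (hN (Sum.inl j)) (hd _ _ hne')
        (hne _) (hne _) hno.1 hno.2
      refine ⟨{c1, c2, c3}, Finset.card_le_three, fun _ a ha b hb => ?_⟩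
      rcases h with h | h
      · exact sep c1 c2 c3 a b (h.1 a ha) (h.2 b hb)
      · obtain ⟨s, hs, hs'⟩ := sep c1 c2 c3 b a (h.1 b hb) (h.2 a ha)
        exact ⟨s, hs, hs'.symm⟩
  choose T hTc hTs using hT
  obtain ⟨TT, hTT⟩ : ∃ TT : Finset ℕ, TT = Finset.univ.biUnion (fun p : Fin m × Fin m => T p.1 p.2) :=
    ⟨_, rfl⟩
  have hTTc : TT.card ≤ m * m * 3 := by
    rw [hTT]
    refine (Finset.card_biUnion_le_card_mul _ _ 3 (fun p _ => hTc p.1 p.2)).trans ?_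
    simp
  have hTTm : ∀ i j, ∀ s ∈ T i j, s ∈ TT := by
    intro i j s hs
    rw [hTT, Finset.mem_biUnion]
    exact ⟨(i, j), Finset.mem_univ _, hs⟩
  obtain ⟨κ, hκ⟩ : ∃ κ : ℕ → ℕ, κ = fun t => (TT.filter (fun s => s ≤ t)).card := ⟨_, rfl⟩
  have hκm : Monotone κ := by
    intro u v huv
    rw [hκ]
    apply Finset.card_le_card
    intro s hs
    rw [Finset.mem_filter] at hs ⊢
    exact ⟨hs.1, hs.2.trans huv⟩
  have hκlt : ∀ u v, κ u < κ v → u < v := fun u v huv => by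
    by_contra hcon
    push Not at hcon
    exact absurd (hκm hcon) (not_le.2 huv)
  have hκb : ∀ t, κ t < m * m * 3 + 1 := by
    intro t
    rw [hκ]
    exact Nat.lt_succ_of_le ((Finset.card_filter_le _ _).trans hTTc)
  have hκs : ∀ a b s, s ∈ TT → a < s → s ≤ b → κ a < κ b := by
    intro a b s hs h1 h2
    rw [hκ]
    apply Finset.card_lt_card
    rw [Finset.ssubset_iff_of_subset]
    · refine ⟨s, Finset.mem_filter.2 ⟨hs, h2⟩, fun h => ?_⟩
      have := (Finset.mem_filter.1 h).2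
      omega
    · intro x hx
      rw [Finset.mem_filter] at hx ⊢
      exact ⟨hx.1, by omega⟩
  have hcell : ∀ i j, ∀ a ∈ A (Sum.inl i), ∀ b ∈ A (Sum.inl j), κ a = κ b → i = j := by
    intro i j a ha b hb hab
    by_contra hij
    obtain ⟨s, hs, h | h⟩ := hTs i j hij a ha b hb
    · exact absurd hab (hκs a b s (hTTm i j s hs) h.1 h.2).ne
    · exact absurd hab.symm (hκs b a s (hTTm i j s hs) h.1 h.2).ne
  -- codes
  let Kc := Fin (m * m * 3 + 1)
  let R : Finset (Fin m) → ((Fin 4 → Kc) ⊕ ((Fin 3 → Kc) × (Fin 3 → Bool))) → Prop := fun S c =>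
    match c with
    | Sum.inl k => StrictMono k ∧ ∀ r, ∃ t ∈ A (Sum.inr S), κ t = (k r : ℕ)
    | Sum.inr (k, β) => (∀ t ∈ A (Sum.inr S), ∃ r, κ t = (k r : ℕ)) ∧
        (∀ r, ∃ t ∈ A (Sum.inr S), κ t = (k r : ℕ)) ∧
        ∀ r, (β r = true ↔ ∃ i ∈ S, ∃ t ∈ A (Sum.inl i), κ t = (k r : ℕ))
  have hex : ∀ S, ∃ c, R S c := by
    intro S
    obtain ⟨W, hW⟩ : ∃ W : Finset Kc, ∀ k, k ∈ W ↔ ∃ t ∈ A (Sum.inr S), κ t = (k : ℕ) :=
      ⟨Finset.univ.filter (fun k : Kc => ∃ t ∈ A (Sum.inr S), κ t = (k : ℕ)), by simp⟩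
    have hWall : ∀ t ∈ A (Sum.inr S), ∃ k ∈ W, κ t = (k : ℕ) := by
      intro t ht
      exact ⟨⟨κ t, hκb t⟩, (hW _).2 ⟨t, ht, rfl⟩, rfl⟩
    have hW0 : 0 < W.card := by
      rw [Finset.card_pos]
      obtain ⟨t, ht⟩ := hne (Sum.inr S)
      obtain ⟨k, hk, _⟩ := hWall t ht
      exact ⟨k, hk⟩
    by_cases h4 : 4 ≤ W.card
    · refine ⟨Sum.inl (fun r => W.orderEmbOfCardLe h4 r), ?_, fun r => ?_⟩
      · exact (W.orderEmbOfCardLe h4).strictMono
      · exact (hW _).1 (Finset.orderEmbOfCardLe_mem W h4 r)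
    · have hk : ∃ k : Fin 3 → Kc, ∀ x, x ∈ W ↔ ∃ r, k r = x := by
        have h123 : W.card = 1 ∨ W.card = 2 ∨ W.card = 3 := by omega
        rcases h123 with h | h | h
        · obtain ⟨x, hx⟩ := Finset.card_eq_one.1 h
          refine ⟨fun _ => x, fun y => ?_⟩
          rw [hx, Finset.mem_singleton]
          exact ⟨fun h => ⟨0, h.symm⟩, fun ⟨_, h⟩ => h.symm⟩
        · obtain ⟨x, y, _, hx⟩ := Finset.card_eq_two.1 h
          refine ⟨![x, y, y], fun z => ?_⟩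
          rw [hx, Finset.mem_insert, Finset.mem_singleton]
          constructor
          · rintro (rfl | rfl)
            · exact ⟨0, rfl⟩
            · exact ⟨1, rfl⟩
          · rintro ⟨r, hr⟩
            fin_cases r
            · left; exact hr.symm
            · right; exact hr.symm
            · right; exact hr.symm
        · obtain ⟨x, y, z, _, _, _, hx⟩ := Finset.card_eq_three.1 h
          refine ⟨![x, y, z], fun w => ?_⟩
          rw [hx, Finset.mem_insert, Finset.mem_insert, Finset.mem_singleton]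
          constructor
          · rintro (rfl | rfl | rfl)
            · exact ⟨0, rfl⟩
            · exact ⟨1, rfl⟩
            · exact ⟨2, rfl⟩
          · rintro ⟨r, hr⟩
            fin_cases r
            · left; exact hr.symm
            · right; left; exact hr.symm
            · right; right; exact hr.symm
      obtain ⟨k, hk⟩ := hk
      refine ⟨Sum.inr (k, fun r => decide (∃ i ∈ S, ∃ t ∈ A (Sum.inl i), κ t = (k r : ℕ))),
        ?_, ?_, ?_⟩
      · intro t ht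
        obtain ⟨x, hx, hx'⟩ := hWall t ht
        obtain ⟨r, hr⟩ := (hk x).1 hx
        exact ⟨r, by rw [hr]; exact hx'⟩
      · intro r
        exact (hW _).1 ((hk _).2 ⟨r, rfl⟩)
      · intro r
        simp
  have hinj : ∀ S S' c, R S c → R S' c → S = S' := by
    intro S S' c h h'
    by_contra hSS
    have hne' : (Sum.inr S : Fin m ⊕ Finset (Fin m)) ≠ Sum.inr S' :=
      fun h => hSS (Sum.inr_injective h)
    rcases c with k | ⟨k, β⟩
    · obtain ⟨hk, hS⟩ := h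
      obtain ⟨_, hS'⟩ := h'
      choose a ha ha' using hS
      choose b hb hb' using hS'
      have := four_blocks (A (Sum.inr S)) (A (Sum.inr S')) (hd _ _ hne') a b ha hb (by
        intro r s hrs
        have h1 : (k r : ℕ) < (k s : ℕ) := hk hrs
        exact ⟨hκlt _ _ (by rw [ha', hb']; exact h1), hκlt _ _ (by rw [ha', hb']; exact h1)⟩)
      rw [hG _ _ hne'] at this
      rcases this with ⟨_, _, _, h, _⟩ | ⟨_, _, _, h, _⟩ <;> simp at h
    · obtain ⟨h1, h2, h3⟩ := h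
      obtain ⟨h1', h2', h3'⟩ := h'
      have key : ∀ S S' : Finset (Fin m),
          (∀ t ∈ A (Sum.inr S), ∃ r, κ t = (k r : ℕ)) →
          (∀ r, (β r = true ↔ ∃ i ∈ S, ∃ t ∈ A (Sum.inl i), κ t = (k r : ℕ))) →
          (∀ r, ∃ t ∈ A (Sum.inr S'), κ t = (k r : ℕ)) →
          (∀ r, ∃ t ∈ A (Sum.inr S), κ t = (k r : ℕ)) →
          (∀ r, (β r = true ↔ ∃ i ∈ S', ∃ t ∈ A (Sum.inl i), κ t = (k r : ℕ))) →
          ∀ i, i ∈ S → i ∈ S' := by
        intro S S' g1 g3 g2' g2 g3' i hi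
        by_cases hcase : ∃ t ∈ A (Sum.inl i), ∃ r, κ t = (k r : ℕ)
        · obtain ⟨t, ht, r, hr⟩ := hcase
          have hβ : β r = true := (g3 r).2 ⟨i, hi, t, ht, hr⟩
          obtain ⟨i', hi', t', ht', hr'⟩ := (g3' r).1 hβ
          have := hcell i i' t ht t' ht' (by rw [hr, hr'])
          rw [this]; exact hi'
        · push Not at hcase
          have hadj : (G m).Adj (Sum.inl i) (Sum.inr S) := Or.inl ⟨i, S, hi, rfl, rfl⟩
          rw [← hG _ _ (by simp)] at hadj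
          have ht := transfer κ hκm (A (Sum.inr S)) (A (Sum.inr S')) (A (Sum.inl i)) (by
            intro t ht
            obtain ⟨r, hr⟩ := g1 t ht
            obtain ⟨t', ht', hr'⟩ := g2' r
            exact ⟨t', ht', by rw [hr, hr']⟩) (by
            intro t ht b hb hcon
            obtain ⟨r, hr⟩ := g1 t ht
            exact hcase b hb r (by rw [← hcon, hr]))
          have hadj' : (G m).Adj (Sum.inl i) (Sum.inr S') := by
            rw [← hG _ _ (by simp)]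
            rcases hadj with h | h
            · exact Or.inl (ht.2 h)
            · exact Or.inr (ht.1 h)
          rcases hadj' with ⟨i', S'', hi', e1, e2⟩ | ⟨i', S'', hi', e1, e2⟩
          · have e1' := Sum.inl_injective e1
            have e2' := Sum.inr_injective e2
            rw [e1', e2']; exact hi'
          · simp at e1
      apply hSS
      ext i
      exact ⟨key S S' h1 h3 h2' h2 h3' i, key S' S h1' h3' h2 h2' h3 i⟩
  choose f hf using hex
  have hfi : Function.Injective f := by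
    intro S S' h
    exact hinj S S' (f S) (hf S) (by rw [h]; exact hf S')
  have := Fintype.card_le_of_injective f hfi
  simpa [Kc] using this

theorem mc_injective : Function.Injective mc := by
  intro s t h
  have := congrFun h 0
  simp only [mc, Matrix.cons_val_zero] at this
  exact_mod_cast this

theorem gp (c : ℕ) : GeneralPosition ((Finset.range (c + 1)).image mc) := by
  classical
  rintro T hT hc ⟨l, e, hl, hle⟩
  obtain ⟨T', hT'⟩ : ∃ T' : Finset ℕ, T' = (Finset.range (c + 1)).filter (fun t => mc t ∈ T) :=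
    ⟨_, rfl⟩
  have hTT : T = T'.image mc := by
    ext x
    rw [Finset.mem_image]
    constructor
    · intro hx
      obtain ⟨t, ht, rfl⟩ := Finset.mem_image.1 (hT hx)
      exact ⟨t, by rw [hT', Finset.mem_filter]; exact ⟨ht, hx⟩, rfl⟩
    · rintro ⟨t, ht, rfl⟩
      rw [hT', Finset.mem_filter] at ht
      exact ht.2
  have hc' : T'.card = 4 := by
    rw [hTT, Finset.card_image_of_injective _ mc_injective] at hc
    exact hc
  have hlc : ∀ x : Fin 3 → ℝ, l x = l ![1,0,0] * x 0 + l ![0,1,0] * x 1 + l ![0,0,1] * x 2 := by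
    intro x
    have : x = (x 0) • ![1,0,0] + (x 1) • ![0,1,0] + (x 2) • ![0,0,1] := by
      funext i; fin_cases i <;> simp
    calc l x = l ((x 0) • ![1,0,0] + (x 1) • ![0,1,0] + (x 2) • ![0,0,1]) := by rw [← this]
      _ = _ := by
        rw [map_add, map_add, map_smul, map_smul, map_smul]
        simp only [smul_eq_mul]
        ring
  obtain ⟨p, hp⟩ : ∃ p : Polynomial ℝ, p = Polynomial.C (l ![0,0,1]) * Polynomial.X ^ 3 +
      Polynomial.C (l ![0,1,0]) * Polynomial.X ^ 2 + Polynomial.C (l ![1,0,0]) * Polynomial.X +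
      Polynomial.C (-e) := ⟨_, rfl⟩
  have hdeg : p.natDegree ≤ 3 := by
    rw [hp]; exact Polynomial.natDegree_cubic_le
  have hp0 : p = 0 := by
    apply Polynomial.eq_zero_of_natDegree_lt_card_of_eval_eq_zero' p (T'.image (fun t : ℕ => (t : ℝ)))
    · intro x hx
      obtain ⟨t, ht, rfl⟩ := Finset.mem_image.1 hx
      have h1 : mc t ∈ T := by rw [hTT]; exact Finset.mem_image_of_mem _ ht
      have h2 := hle _ h1
      rw [hlc] at h2
      simp only [mc, Matrix.cons_val_zero, Matrix.cons_val_one, Matrix.cons_val] at h2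
      rw [hp]
      simp only [Polynomial.eval_add, Polynomial.eval_mul, Polynomial.eval_C, Polynomial.eval_pow,
        Polynomial.eval_X]
      linarith
    · rw [Finset.card_image_of_injective _ Nat.cast_injective, hc']
      omega
  have q1 : l ![1,0,0] = 0 := by
    have := congrArg (fun q => Polynomial.coeff q 1) hp0
    rw [hp] at this
    simpa [Polynomial.coeff_X, Polynomial.coeff_C] using this
  have q2 : l ![0,1,0] = 0 := by
    have := congrArg (fun q => Polynomial.coeff q 2) hp0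
    rw [hp] at this
    simpa [Polynomial.coeff_X, Polynomial.coeff_C] using this
  have q3 : l ![0,0,1] = 0 := by
    have := congrArg (fun q => Polynomial.coeff q 3) hp0
    rw [hp] at this
    simpa [Polynomial.coeff_X, Polynomial.coeff_C] using this
  apply hl
  apply LinearMap.ext
  intro x
  rw [hlc, q1, q2, q3]
  simp

/-- There is a finite graph that is not `3`-Tverberg. -/
theorem result : ∃ (V : Type) (_ : Fintype V) (G : SimpleGraph V), ¬ IsTverberg 3 G := by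
  classical
  refine ⟨Fin 64 ⊕ Finset (Fin 64), inferInstance, G 64, ?_⟩
  rintro ⟨c, hc⟩
  obtain ⟨P, hPne, hPd, hPS, hP2, _⟩ := hc _ (gp c) (by
    rw [Finset.card_image_of_injective _ mc_injective, Finset.card_range]
    omega)
  obtain ⟨A, hA⟩ : ∃ A : Fin 64 ⊕ Finset (Fin 64) → Set ℕ, ∀ v t, t ∈ A v ↔ t ≤ c ∧ mc t ∈ P v :=
    ⟨fun v => {t | t ≤ c ∧ mc t ∈ P v}, fun v t => Iff.rfl⟩
  have himg : ∀ v, mc '' (A v) = (P v : Set (Fin 3 → ℝ)) := by
    intro v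
    ext x
    constructor
    · rintro ⟨t, ht, rfl⟩
      exact ((hA v t).1 ht).2
    · intro hx
      have := (hPS x).2 ⟨v, hx⟩
      obtain ⟨t, ht, rfl⟩ := Finset.mem_image.1 this
      exact ⟨t, (hA v t).2 ⟨by rw [Finset.mem_range] at ht; omega, hx⟩, rfl⟩
  have hN : ∀ v, ∀ t ∈ A v, t ≤ c := fun v t ht => ((hA v t).1 ht).1
  have hne : ∀ v, (A v).Nonempty := by
    intro v
    obtain ⟨x, hx⟩ := hPne v
    have : x ∈ mc '' (A v) := by rw [himg]; exact hx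
    obtain ⟨t, ht, _⟩ := this
    exact ⟨t, ht⟩
  have hd : ∀ u v, u ≠ v → Disjoint (A u) (A v) := by
    intro u v huv
    rw [Set.disjoint_left]
    intro t h1 h2
    exact Finset.disjoint_left.1 (hPd u v huv) ((hA u t).1 h1).2 ((hA v t).1 h2).2
  have := comb 64 c A hN hne hd (by
    intro u v huv
    rw [← meet_iff c (A u) (A v) (hN u) (hN v) (hd u v huv) (hne u) (hne v), himg, himg]
    exact hP2 u v huv)
  norm_num at this

end Pool.Agent.Results.MP_ba10a5_co.NotThreeTverberg
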